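import Pool.Agent.Run7.h100.UN.Iface2
import Pool.Agent.Run7.h762.UN.POLY

set_option autoImplicit false
set_option linter.style.haveILetI false

/-! The piece POLYE of project UN: helper762's proof of POLY with `ε` instead of `1`. -/

namespace Run7.h100.UNE

open Polynomial Finset
open Run7.h100.UN

/-- `log x ≤ ε x + K` -/
lemma log_le_eps (ε : ℝ) (hε : 0 < ε) (x : ℝ) (hx : 0 < x) : Real.log x ≤ ε * x - Real.log ε := by
  have h1 := Real.log_le_sub_one_of_pos (mul_pos hε hx)
  rw [Real.log_mul hε.ne' hx.ne'] at h1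
  linarith

theorem t_POLYE (hHEN : S_HEN) : S_POLYE := by
  intro s hs ε hε
  obtain ⟨q, hq1, hq⟩ := Nat.exists_infinite_primes (s.sup id + 1)
  have hqs : q ∉ s := by
    intro h
    have := Finset.le_sup (f := id) h
    simp only [id] at this
    omega
  obtain ⟨A, hA⟩ : ∃ A : ℝ, A = 2 * Real.log q + ∑ p ∈ s, Real.log p := ⟨_, rfl⟩
  obtain ⟨d₀, hd₀⟩ := exists_nat_ge ((A + ε / 2 - Real.log (ε / 2)) / (ε / 2))
  refine ⟨max 1 d₀, fun d hd => ?_⟩
  have hd1 : 1 ≤ d := (le_max_left _ _).trans hd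
  have hdA : A + ε / 2 - Real.log (ε / 2) ≤ d * (ε / 2) := by
    rw [← div_le_iff₀ (half_pos hε)]
    exact hd₀.trans (by exact_mod_cast (le_max_right _ _).trans hd)
  obtain ⟨k, hk⟩ : ∃ k : ℕ → ℕ, k = fun p => 2 * padicValNat p (d - 1).factorial + 1 := ⟨_, rfl⟩
  obtain ⟨G, hG⟩ : ∃ G : ℤ[X], G = ∏ j ∈ range d, (X - C (j : ℤ)) := ⟨_, rfl⟩
  have hGm : G.Monic := by
    rw [hG]
    exact monic_prod_of_monic _ _ (fun j _ => monic_X_sub_C _)
  have hGd : G.natDegree = d := by
    rw [hG, natDegree_prod_of_monic _ _ (fun j _ => monic_X_sub_C _)]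
    simp only [natDegree_X_sub_C, sum_const, card_range, smul_eq_mul, mul_one]
  obtain ⟨mo, hmo⟩ : ∃ mo : ℕ → ℕ, mo = fun p => if p = q then q ^ 2 else p ^ k p := ⟨_, rfl⟩
  have hmoq : mo q = q ^ 2 := by rw [hmo]; simp
  have hmop : ∀ p ∈ s, mo p = p ^ k p := by
    intro p hp
    rw [hmo]
    have : p ≠ q := fun h => hqs (h ▸ hp)
    simp [this]
  obtain ⟨t, ht⟩ : ∃ t : Finset ℕ, t = insert q s := ⟨_, rfl⟩
  have hqt : q ∈ t := by rw [ht]; exact mem_insert_self _ _
  have hst : ∀ p ∈ s, p ∈ t := fun p hp => by rw [ht]; exact mem_insert_of_mem hp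
  have htp : ∀ p ∈ t, p.Prime := by
    intro p hp
    rw [ht, mem_insert] at hp
    rcases hp with rfl | hp
    · exact hq
    · exact hs p hp
  have hmo0 : ∀ p ∈ t, mo p ≠ 0 := by
    intro p hp
    rw [hmo]
    dsimp only
    split_ifs
    · exact pow_ne_zero _ hq.ne_zero
    · exact pow_ne_zero _ (htp p hp).ne_zero
  have hcop : Set.Pairwise (t : Set ℕ) (Function.onFun Nat.Coprime mo) := by
    intro p hp p' hp' hne
    have h1 := (Nat.coprime_primes (htp p hp) (htp p' hp')).2 hne
    show Nat.Coprime (mo p) (mo p')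
    rw [hmo]
    dsimp only
    split_ifs with h2 h3 h3
    · exact absurd (h2.trans h3.symm) hne
    · exact Nat.Coprime.pow _ _ (h2 ▸ h1)
    · exact Nat.Coprime.pow _ _ (h3 ▸ h1)
    · exact Nat.Coprime.pow _ _ h1
  obtain ⟨ta, hta⟩ : ∃ ta : ℕ → ℕ → ℤ, ta = fun i p => if p = q then (if i = 0 then (q : ℤ) else 0) else G.coeff i := ⟨_, rfl⟩
  have hex : ∀ i, ∃ c : ℕ, (∀ p ∈ t, ((mo p : ℕ) : ℤ) ∣ (c : ℤ) - ta i p) ∧ c < ∏ p ∈ t, mo p := by
    intro i
    obtain ⟨c, hc⟩ : ∃ c : ℕ, c = (Nat.chineseRemainderOfFinset (fun p => (ta i p % (mo p : ℤ)).toNat) mo t hmo0 hcop : ℕ) := ⟨_, rfl⟩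
    refine ⟨c, ?_, ?_⟩
    · intro p hp
      have h1 := (Nat.chineseRemainderOfFinset (fun p => (ta i p % (mo p : ℤ)).toNat) mo t hmo0 hcop).2 p hp
      rw [← hc] at h1
      have hm0 : (0 : ℤ) < mo p := by exact_mod_cast Nat.pos_of_ne_zero (hmo0 p hp)
      have h2 : ((ta i p % (mo p : ℤ)).toNat : ℤ) = ta i p % (mo p : ℤ) := Int.toNat_of_nonneg (Int.emod_nonneg _ hm0.ne')
      have h3 : (c : ℤ) ≡ ta i p % (mo p : ℤ) [ZMOD mo p] := by
        rw [← h2]
        exact Int.natCast_modEq_iff.2 h1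
      have h4 : (c : ℤ) ≡ ta i p [ZMOD mo p] := h3.trans (Int.mod_modEq _ _)
      exact h4.symm.dvd
    · rw [hc]
      exact Nat.chineseRemainderOfFinset_lt_prod _ _ _ _
  choose c hc1 hc2 using hex
  obtain ⟨f, hf⟩ : ∃ f : ℤ[X], f = X ^ d + ∑ i : Fin d, C (c i : ℤ) * X ^ (i : ℕ) := ⟨_, rfl⟩
  have hrd : (∑ i : Fin d, C (c i : ℤ) * X ^ (i : ℕ) : ℤ[X]).degree < d := degree_sum_fin_lt _
  have hfm : f.Monic := by
    rw [hf]
    exact monic_X_pow_add hrd
  have hfd : f.natDegree = d := by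
    rw [hf]
    exact natDegree_eq_of_degree_eq_some (by rw [degree_add_eq_left_of_degree_lt (by rw [degree_X_pow]; exact hrd), degree_X_pow])
  have hfc : ∀ i < d, f.coeff i = c i := by
    intro i hi
    rw [hf, coeff_add, coeff_X_pow, if_neg hi.ne, zero_add, finsetSum_coeff]
    simp_rw [coeff_C_mul, coeff_X_pow]
    rw [Finset.sum_eq_single (⟨i, hi⟩ : Fin d)]
    · simp
    · intro j _ hj
      rw [if_neg (fun h => hj (Fin.ext h.symm)), mul_zero]
    · simp
  have hq2 : ∀ i < d, (q : ℤ) ∣ f.coeff i := by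
    intro i hi
    have h1 := hc1 i q hqt
    rw [hmoq] at h1
    have h2 : (q : ℤ) ∣ ta i q := by
      rw [hta]
      simp only [if_true]
      split_ifs
      · exact dvd_rfl
      · exact dvd_zero _
    have h3 : (q : ℤ) ∣ ((q ^ 2 : ℕ) : ℤ) := by
      push_cast
      exact dvd_pow_self _ two_ne_zero
    have h4 := dvd_add (h3.trans h1) h2
    rw [sub_add_cancel] at h4
    rw [hfc i hi]
    exact h4
  have hirr : Irreducible f := by
    have hP : (Ideal.span {(q : ℤ)}).IsPrime :=
      (Ideal.span_singleton_prime (by exact_mod_cast hq.ne_zero)).2 (Nat.prime_iff_prime_int.1 hq)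
    apply irreducible_of_eisenstein_criterion hP
    · rw [hfm.leadingCoeff]
      exact fun h => hP.ne_top ((Ideal.eq_top_iff_one _).2 h)
    · intro n hn
      rw [degree_eq_natDegree hfm.ne_zero, hfd] at hn
      exact Ideal.mem_span_singleton.2 (hq2 n (by exact_mod_cast hn))
    · rw [degree_eq_natDegree hfm.ne_zero, hfd]
      exact_mod_cast hd1
    · rw [Ideal.span_singleton_pow, Ideal.mem_span_singleton]
      intro h
      have h1 := hc1 0 q hqt
      rw [hfc 0 hd1] at h
      have h2 : ta 0 q = (q : ℤ) := by rw [hta]; simp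
      rw [hmoq, h2] at h1
      push_cast at h1
      have h3 : ((q : ℤ) ^ 2) ∣ (q : ℤ) := by
        have := dvd_sub h h1
        rwa [sub_sub_cancel] at this
      have h4 := Int.le_of_dvd (by exact_mod_cast hq.pos) h3
      have h5 : (2 : ℤ) ≤ q := by exact_mod_cast hq.two_le
      nlinarith
    · exact hfm.isPrimitive
  refine ⟨f, hfm, hfd, hirr, ?_, ?_⟩
  · obtain ⟨M, hM⟩ : ∃ M : ℕ, M = ∏ p ∈ t, mo p := ⟨_, rfl⟩
    have hM1 : 1 ≤ M := by
      rw [hM]
      exact Nat.one_le_iff_ne_zero.2 (Finset.prod_ne_zero_iff.2 hmo0)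
    have hsum : ∑ i ∈ range (d + 1), |(f.coeff i : ℝ)| ≤ ((d : ℝ) + 1) * M := by
      calc ∑ i ∈ range (d + 1), |(f.coeff i : ℝ)| ≤ ∑ _i ∈ range (d + 1), (M : ℝ) := by
            apply sum_le_sum
            intro i hi
            rw [mem_range] at hi
            rcases Nat.lt_or_ge i d with h | h
            · rw [hfc i h]
              have h2 := hc2 i
              rw [← hM] at h2
              rw [Int.cast_natCast, Nat.abs_cast]
              exact_mod_cast h2.le
            · have h2 : i = d := by omega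
              have h3 : f.coeff d = 1 := by
                have := hfm.coeff_natDegree
                rwa [hfd] at this
              rw [h2, h3]
              simp only [Int.cast_one, abs_one]
              exact_mod_cast hM1
        _ = ((d : ℝ) + 1) * M := by
            rw [sum_const, card_range, nsmul_eq_mul]
            push_cast
            ring
    have hpos : 0 < ∑ i ∈ range (d + 1), |(f.coeff i : ℝ)| := by
      have h3 : f.coeff d = 1 := by
        have := hfm.coeff_natDegree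
        rwa [hfd] at this
      have h4 := Finset.single_le_sum (f := fun i => |(f.coeff i : ℝ)|) (fun i _ => abs_nonneg _) (mem_range.2 (Nat.lt_succ_self d))
      simp only [h3, Int.cast_one, abs_one] at h4
      linarith
    have hd0 : (0 : ℝ) < (d : ℝ) + 1 := by positivity
    have hMr : (0 : ℝ) < M := by exact_mod_cast hM1
    have hlogM : Real.log M = 2 * Real.log q + ∑ p ∈ s, (k p : ℝ) * Real.log p := by
      rw [hM, ht, prod_insert hqs, hmoq, Nat.cast_mul, Real.log_mul, Nat.cast_pow, Real.log_pow, Nat.cast_prod, Real.log_prod]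
      · congr 1
        apply sum_congr rfl
        intro p hp
        rw [hmop p hp, Nat.cast_pow, Real.log_pow]
      · intro p hp
        exact_mod_cast hmo0 p (hst p hp)
      · exact_mod_cast pow_ne_zero _ hq.ne_zero
      · rw [Nat.cast_prod]
        exact Finset.prod_ne_zero_iff.2 (fun p hp => by exact_mod_cast hmo0 p (hst p hp))
    have hk2 : ∑ p ∈ s, (k p : ℝ) * Real.log p ≤ 2 * d * ∑ p ∈ s, (Real.log p / ((p : ℝ) - 1)) + ∑ p ∈ s, Real.log p := by
      rw [mul_sum, ← sum_add_distrib]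
      apply sum_le_sum
      intro p hp
      rw [hk]
      exact Pool.Agent.Run7.h762.UN.val_bound p (hs p hp) d
    calc Real.log (∑ i ∈ range (d + 1), |(f.coeff i : ℝ)|) ≤ Real.log (((d : ℝ) + 1) * M) := Real.log_le_log hpos hsum
      _ = Real.log ((d : ℝ) + 1) + Real.log M := Real.log_mul hd0.ne' hMr.ne'
      _ ≤ (ε / 2 * ((d : ℝ) + 1) - Real.log (ε / 2)) + (2 * Real.log q + (2 * d * ∑ p ∈ s, (Real.log p / ((p : ℝ) - 1)) + ∑ p ∈ s, Real.log p)) := by
          rw [hlogM]
          have := log_le_eps (ε / 2) (half_pos hε) ((d : ℝ) + 1) hd0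
          linarith
      _ ≤ d * (ε + 2 * ∑ p ∈ s, Real.log p / ((p : ℝ) - 1)) := by
          rw [hA] at hdA
          linarith
  · intro α hα p hp
    apply hHEN p d (hs p hp) f hfm hfd _ α hα
    intro i
    rw [← hG, coeff_sub]
    rcases lt_trichotomy i d with h | h | h
    · have h1 := hc1 i p (hst p hp)
      have hpq : p ≠ q := fun h => hqs (h ▸ hp)
      have h2 : ta i p = G.coeff i := by rw [hta]; simp [hpq]
      rw [hmop p hp, h2, hk] at h1
      push_cast at h1
      rw [hfc i h]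
      exact h1
    · have h1 : f.coeff d = 1 := by
        have := hfm.coeff_natDegree
        rwa [hfd] at this
      have h2 : G.coeff d = 1 := by
        have := hGm.coeff_natDegree
        rwa [hGd] at this
      rw [h, h1, h2, sub_self]
      exact dvd_zero _
    · rw [coeff_eq_zero_of_natDegree_lt (by rw [hfd]; exact h), coeff_eq_zero_of_natDegree_lt (by rw [hGd]; exact h), sub_self]
      exact dvd_zero _

end Run7.h100.UNE
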