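import Pool.Agent.Run7.h100.UN.Iface
import Pool.Agent.H58P.Ht

set_option autoImplicit false

namespace Run7.h100.UN

open NumberField Height Module Polynomial

lemma v_int_le (L : IntermediateField ℚ Qb) [NumberField L] (v : FinitePlace L) (x : L)
    (hx : IsIntegral ℤ x) : v x ≤ 1 := by
  have h := FinitePlace.norm_le_one L v.maximalIdeal (⟨x, hx⟩ : 𝓞 L)
  have h2 := FinitePlace.norm_embedding_eq v x
  rw [← h2]
  exact h

theorem t_UNIT : S_UNIT := by
  intro c hc
  obtain ⟨D, hD0, hD⟩ := Pool.Agent.H58P.exists_den c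
  obtain ⟨D', hD'0, hD'⟩ := Pool.Agent.H58P.exists_den c⁻¹
  refine ⟨max D D', ?_⟩
  intro p hp hlt L _ x hx v hv
  have hint : ∀ n : ℤ, v (n : L) ≤ 1 := by
    intro n
    apply v_int_le L v
    have : IsIntegral ℤ (algebraMap ℤ L n) := isIntegral_algebraMap
    simpa using this
  have hnat : ∀ n : ℕ, v (n : L) ≤ 1 := fun n => by simpa using hint (n : ℤ)
  have hunit : ∀ n : ℕ, 0 < n → n < p → v (n : L) = 1 := by
    intro n hn hnp
    apply le_antisymm (hnat n)
    have hcop : IsCoprime (n : ℤ) (p : ℤ) := by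
      rw [Nat.isCoprime_iff_coprime]
      exact Nat.Coprime.symm ((Nat.Prime.coprime_iff_not_dvd hp).2 (Nat.not_dvd_of_pos_of_lt hn hnp))
    obtain ⟨u, w, huw⟩ := hcop
    by_contra hlt'
    push Not at hlt'
    have h1 : (1 : L) = (u : L) * (n : L) + (w : L) * (p : L) := by exact_mod_cast huw.symm
    have h2 : v ((u : L) * (n : L)) < 1 := by
      rw [map_mul]
      exact (mul_le_of_le_one_left (apply_nonneg v _) (hint u)).trans_lt hlt'
    have h3 : v ((w : L) * (p : L)) < 1 := by
      rw [map_mul]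
      exact (mul_le_of_le_one_left (apply_nonneg v _) (hint w)).trans_lt hv
    have h4 := (v.add_le ((u : L) * (n : L)) ((w : L) * (p : L))).trans_lt (max_lt h2 h3)
    rw [← h1, map_one] at h4
    exact lt_irrefl _ h4
  have tr : ∀ (y : L) (E : ℕ), 0 < E → E < p → IsIntegral ℤ ((E : Qb) * (y : Qb)) → v y ≤ 1 := by
    intro y E hE hEp hy
    have h1 : IsIntegral ℤ ((E : L) * y) := by
      have : IsIntegral ℤ (algebraMap L Qb ((E : L) * y)) := by
        rw [map_mul, map_natCast]
        exact hy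
      exact (isIntegral_algebraMap_iff (algebraMap L Qb).injective).1 this
    have h2 := v_int_le L v _ h1
    rwa [map_mul, hunit E hE hEp, one_mul] at h2
  have hx1 : v x ≤ 1 := tr x D hD0 ((le_max_left _ _).trans_lt hlt) (by rw [hx]; exact hD)
  have hx2 : v x⁻¹ ≤ 1 := tr x⁻¹ D' hD'0 ((le_max_right _ _).trans_lt hlt) (by
    have : ((x⁻¹ : L) : Qb) = c⁻¹ := by rw [← hx]; rfl
    rw [this]; exact hD')
  apply le_antisymm hx1
  rw [map_inv₀] at hx2
  have hx0 : x ≠ 0 := by
    rintro rfl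
    exact hc (by rw [← hx]; rfl)
  have hvx : 0 < v x := lt_of_le_of_ne (apply_nonneg v _) (fun h => hx0 ((map_eq_zero v).1 h.symm))
  exact (inv_le_one₀ hvx).1 hx2

end Run7.h100.UN
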