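import Pool.Agent.Helper259.HtDef

/-!
# Project UN (helper100): a field with (USB) and without (N), page MP_8d2e9f_nt, Q1

`F` = the field of all algebraic numbers which are totally `p`-adic for all `p` in `S`, for an infinite set
`S` of primes such that every algebraic number is totally `p`-adic for all but finitely many `p` in `S`,
and `F` has infinitely many elements of height `≤ 5`.

(USB): let `f = P / Q` have degree `d`, let `Φ` be the homogeneous lift, `|H - h| ≤ C`, let `p ∈ S` be a large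
prime of good reduction with the coefficients of `f` totally `p`-adic, and `N = (p ^ 2)!`. For `z` in the
projective line over `F` all residue fields above `p` have `p` elements, so
`Φ^(2N) z = Φ^N z` modulo all places above `p`; if `f^(2N) z ≠ f^N z` the product formula gives
`log p ≤ log 2 + h (f^(2N) z) + h (f^N z) ≤ log 2 + 2 C + (d^(2N) + d^N) H z`.
-/

set_option autoImplicit false

namespace Run7.h100.UN

open NumberField Height Module Polynomial
open scoped OnePoint
open Pool.Agent.Helper259.AbsHt (absLogHeight)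

abbrev Qb : Type := AlgebraicClosure ℚ

/-- `x` is totally `p`-adic: all its conjugates in an algebraic closure of `ℚ_[p]` are in `ℚ_[p]` -/
def TPa (p : ℕ) (x : Qb) : Prop :=
  ∀ (_ : Fact p.Prime) (σ : Qb →+* AlgebraicClosure ℚ_[p]),
    ∃ y : ℚ_[p], σ x = algebraMap ℚ_[p] (AlgebraicClosure ℚ_[p]) y

/-- the homogeneous lift of degree `d` with the coefficients `a` (first coordinate) and `b` -/
def lft {R : Type*} [CommRing R] (a b : ℕ → R) (d : ℕ) (z : R × R) : R × R :=
  (∑ i ∈ Finset.range (d + 1), a i * z.1 ^ i * z.2 ^ (d - i),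
    ∑ i ∈ Finset.range (d + 1), b i * z.1 ^ i * z.2 ^ (d - i))

open Classical in
/-- the point of the projective line with the homogeneous coordinates `z` -/
noncomputable def pt (z : Qb × Qb) : OnePoint Qb :=
  if z.2 = 0 then ∞ else ((z.1 / z.2 : Qb) : OnePoint Qb)

open Classical in
/-- the self-map `P / Q` of the projective line, `d` is the degree -/
noncomputable def ratm (P Q : Qb[X]) (d : ℕ) (z : OnePoint Qb) : OnePoint Qb :=
  z.elim (if Q.coeff d = 0 then ∞ else ((P.coeff d / Q.coeff d : Qb) : OnePoint Qb))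
    fun x => if Q.eval x = 0 then ∞ else ((P.eval x / Q.eval x : Qb) : OnePoint Qb)

/-- INT. Proof: let `z = (y ^ p - y) / p`, `m` its minimal polynomial over `ℚ`. The roots of `m` in
`AlgebraicClosure ℚ_[p]` are the `σ z` (extend embeddings to `Qb`); `σ y` is in `ℚ_[p]` and integral over
`ℤ`, so it is in `ℤ_[p]`, and `(σ y) ^ p - σ y` is in `p ℤ_[p]` (its residue is in `ZMod p`). So all roots of
`m` have norm `≤ 1`, and the coefficients of `m` are rational numbers of `p`-adic norm `≤ 1`. As `p z` is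
integral, the coefficients of `m` times a power of `p` are integers. So the coefficients are integers. -/
def S_INT : Prop := ∀ p : ℕ, p.Prime → ∀ y : Qb, TPa p y → IsIntegral ℤ y →
  IsIntegral ℤ ((y ^ p - y) / (p : Qb))

/-- SPLIT. From the starting theorem `Pool.Agent.W976.MF.SPL : Pool.Agent.W458.MF.St_SPL` (infinitely many
primes `l` such that a given separable monic `R : ℤ[X]` is a product of distinct linear factors modulo `l`)
and Hensel's lemma: for `x` in `A` choose `n > 0` with `n x` integral (`Pool.Agent.H58P.exists_den`), let `R` be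
the product of the DIFFERENT minimal polynomials over `ℤ` of the `n x`; modulo `l` it has `deg R` distinct
roots, so it has `deg R` roots in `ℤ_[l]`, and all its roots in `AlgebraicClosure ℚ_[l]` are in `ℚ_[l]`. -/
def S_SPLIT : Prop := ∀ (A : Finset Qb) (B : ℕ), ∃ p : ℕ, p.Prime ∧ B < p ∧ ∀ x ∈ A, TPa p x

/-- HEN: the Hensel part of POLY (see there). -/
def S_HEN : Prop := ∀ (p d : ℕ), p.Prime → ∀ f : ℤ[X], f.Monic → f.natDegree = d →
  (∀ i, ((p : ℤ) ^ (2 * padicValNat p (d - 1).factorial + 1)) ∣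
    (f - ∏ j ∈ Finset.range d, (X - C (j : ℤ))).coeff i) →
  ∀ α : Qb, aeval α f = 0 → TPa p α

/-- POLY, from `S_HEN`. Let `q` be a prime outside `s` (any), `G = ∏_{j < d} (X - j)`, `k p = 2 * v_p ((d-1)!) + 1`,
`M = q ^ 2 * ∏_{p ∈ s} p ^ (k p)`. By the Chinese remainder theorem there is a monic `f` of degree `d`
whose coefficients below `d` are in `[0, M)`, with `f ≡ G` modulo `p ^ (k p)` for `p ∈ s` and
`f ≡ X ^ d + q` modulo `q ^ 2` (Eisenstein, irreducible). `|G' j| = |j! (d-1-j)!|` divides `(d-1)!`, so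
`|f j| ≤ p ^ (-k p) < |f' j| ^ 2` and Hensel's lemma gives a root `z_j` in `ℤ_[p]` with
`|z_j - j| < |G' j| ≤ |j - i|` for all `i ≠ j`: `d` different roots, so all roots are in `ℚ_[p]`.
`(p - 1) v_p ((d-1)!) ≤ d` (Legendre, `sub_one_mul_padicValNat_factorial`), so
`log (sum of the coefficients) ≤ log (d+1) + 2 log q + ∑ (2 d / (p-1) + 1) log p ≤ d (1 + 2 ∑ ...)` for large `d`. -/
def S_POLY : Prop := ∀ s : Finset ℕ, (∀ p ∈ s, p.Prime) → ∃ d₀ : ℕ, ∀ d : ℕ, d₀ ≤ d →
  ∃ f : ℤ[X], f.Monic ∧ f.natDegree = d ∧ Irreducible f ∧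
    Real.log (∑ i ∈ Finset.range (d + 1), |(f.coeff i : ℝ)|) ≤
      d * (1 + 2 * ∑ p ∈ s, Real.log p / ((p : ℝ) - 1)) ∧
    ∀ α : Qb, aeval α f = 0 → ∀ p ∈ s, TPa p α

/-- MAH. `α` is an algebraic integer with minimal polynomial `f`; in `K = ℚ(α)` the finite places contribute
nothing to the height (`absLogHeight_eq`, `mulHeight₁_eq`), the infinite ones give the Mahler measure of `f`
(`mahlerMeasure_eq_leadingCoeff_mul_prod_roots`, the roots are the conjugates), and
`mahlerMeasure_le_sum_norm_coeff`. (see also `Pool.Agent.Helper259.HtExt: prod_embeddings`) -/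
def S_MAH : Prop := ∀ f : ℤ[X], f.Monic → Irreducible f → ∀ α : Qb, aeval α f = 0 →
  absLogHeight ![1, α] ≤
    Real.log (∑ i ∈ Finset.range (f.natDegree + 1), |(f.coeff i : ℝ)|) / f.natDegree

/-- LOW. Product formula for `D = U 0 * V 1 - U 1 * V 0`: `1 = ∏_v |D|_v`, `|D|_v ≤ 2 |U|_v |V|_v` for the
infinite places, the hypothesis for the finite ones, and the product formula for `p`. `absLogHeight_eq` in
`Pool.Agent.Helper259.AbsHt`, `NumberField.mulHeight_eq`, `NumberField.prod_abs_eq_one`. -/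
def S_LOW : Prop := ∀ (L : IntermediateField ℚ Qb) [NumberField L] (p : ℕ) (U V : Fin 2 → L), 0 < p →
  U 0 * V 1 - U 1 * V 0 ≠ 0 →
  (∀ v : FinitePlace L, v (U 0 * V 1 - U 1 * V 0) ≤
    v (p : L) * (⨆ i, v (U i)) * (⨆ i, v (V i))) →
  Real.log p ≤ Real.log 2 + absLogHeight (fun i => (U i : Qb)) + absLogHeight (fun i => (V i : Qb))

/-- LOC, from `S_INT`. For `y` in `𝓞 L`: `v (y ^ p - y) ≤ v p`. (1) If `v y < 1`, then
`v (y ^ p - y) = v y`. (2) `∏_{j < p} (y - j) - (y ^ p - y)` is `p` times an integral polynomial in `y`, so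
`v (∏ (y - j)) < 1`. For general `y` with `v y ≤ 1` write `y = a / b` with `a, b` in `𝓞 L`, `v b = 1`. -/
def S_LOC : Prop := ∀ (L : IntermediateField ℚ Qb) [NumberField L] (p : ℕ), p.Prime →
  (∀ x ∈ L, TPa p x) → ∀ v : FinitePlace L, v (p : L) < 1 →
    (∀ y : L, v y < 1 → v y ≤ v (p : L)) ∧ ∀ x : L, v x ≤ 1 → ∃ j : ℕ, j < p ∧ v (x - j) < 1

/-- DYN. Reduction modulo the maximal ideal: the class of `z` is one of the `p * p` classes of pairs of
integers `j, j' < p`, `lft` is compatible with congruence (`v (z.1 - z'.1) < 1`, `v (z.2 - z'.2) < 1`). For a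
self-map `φ` of a set with at most `M` elements `φ^[2 * M!] = φ^[M!]`. So the two iterates are congruent
and the determinant is `≡ 0`. -/
def S_DYN : Prop := ∀ (L : Type) [Field L] (v : AbsoluteValue L ℝ), IsNonarchimedean v →
  ∀ p d : ℕ, 0 < p → (∀ x : L, v x ≤ 1 → ∃ j : ℕ, j < p ∧ v (x - j) < 1) →
  ∀ a b : ℕ → L, (∀ i, v (a i) ≤ 1) → (∀ i, v (b i) ≤ 1) →
  (∀ z : L × L, max (v z.1) (v z.2) = 1 → max (v (lft a b d z).1) (v (lft a b d z).2) = 1) →
  ∀ z : L × L, max (v z.1) (v z.2) = 1 →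
    (∀ n : ℕ, max (v ((lft a b d)^[n] z).1) (v ((lft a b d)^[n] z).2) = 1) ∧
    v (((lft a b d)^[2 * (p * p).factorial] z).1 * ((lft a b d)^[(p * p).factorial] z).2 -
      ((lft a b d)^[2 * (p * p).factorial] z).2 * ((lft a b d)^[(p * p).factorial] z).1) < 1

/-- UNIT. Choose `D, D' > 0` with `D c`, `D' c⁻¹` integral over `ℤ` (`Pool.Agent.H58P.exists_den`),
`n₀ = max D D'`; `v D = 1` as `D` is prime to `p`; integral elements have `v ≤ 1`. -/
def S_UNIT : Prop := ∀ c : Qb, c ≠ 0 → ∃ n₀ : ℕ, ∀ p : ℕ, p.Prime → n₀ < p →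
  ∀ (L : IntermediateField ℚ Qb) [NumberField L] (x : L), (x : Qb) = c →
    ∀ v : FinitePlace L, v (p : L) < 1 → v x = 1

/-- GOOD, from `S_UNIT`. Over the field `L₀` generated by the coefficients there are a Bezout identity
`A P + B Q = 1` and one for the reversed polynomials; homogenized: `A₁ Φ₁ + B₁ Φ₂ = y ^ m`,
`A₂ Φ₁ + B₂ Φ₂ = x ^ m` with coefficients in `L₀` (see `Pool.Agent.H58W.bezout_hom`, `coprime_reflect`); for
large `p` all nonzero coefficients of `P, Q, A₁, ...` are units at the places above `p` (all `L`). -/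
def S_GOOD : Prop := ∀ (P Q : Qb[X]) (d : ℕ), IsCoprime P Q → max P.natDegree Q.natDegree = d → 0 < d →
  ∃ n₀ : ℕ, ∀ p : ℕ, p.Prime → n₀ < p → ∀ (L : IntermediateField ℚ Qb) [NumberField L] (a b : ℕ → L),
    (∀ i, (a i : Qb) = P.coeff i) → (∀ i, (b i : Qb) = Q.coeff i) →
    ∀ v : FinitePlace L, v (p : L) < 1 → (∀ i, v (a i) ≤ 1) ∧ (∀ i, v (b i) ≤ 1) ∧
      ∀ z : L × L, max (v z.1) (v z.2) = 1 → max (v (lft a b d z).1) (v (lft a b d z).2) = 1

/-- PT. Homogeneous coordinates: direct computation (`y = 0` and `y ≠ 0`). -/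
def S_PT : Prop := ∀ (P Q : Qb[X]) (d : ℕ), IsCoprime P Q → max P.natDegree Q.natDegree = d →
  ∀ z : Qb × Qb, z ≠ 0 → lft P.coeff Q.coeff d z ≠ 0 ∧
    ratm P Q d (pt z) = pt (lft P.coeff Q.coeff d z)

/-- FIN, from `S_PT`. Iterate `lft` over `Qb[X]` from `(X, 1)` (and `(1, X)`): `D = det` of the `n`-th and the
`m`-th iterate. If `D ≠ 0` the set is contained in the zeros of `D` and `∞`. If `D = 0`, all finite points are
in the set; then the determinant at `(1, y)` vanishes for all `y ≠ 0`, so for `y = 0`, and `∞` is in the set. -/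
def S_FIN : Prop := ∀ (P Q : Qb[X]) (d : ℕ), IsCoprime P Q → max P.natDegree Q.natDegree = d →
  ∀ n m : ℕ, (∃ z, (ratm P Q d)^[n] z ≠ (ratm P Q d)^[m] z) →
    {z | (ratm P Q d)^[n] z = (ratm P Q d)^[m] z}.Finite

/-- ALPHA, from `S_POLY`, `S_MAH` (roots of `f` have degree `d`, `d → ∞`) -/
def S_ALPHA : Prop := ∀ s : Finset ℕ, (∀ p ∈ s, p.Prime) →
  (∑ p ∈ s, Real.log p / ((p : ℝ) - 1)) ≤ 2 → ∀ A : Finset Qb,
    ∃ α : Qb, α ∉ A ∧ absLogHeight ![1, α] ≤ 5 ∧ ∀ p ∈ s, TPa p α

/-- REC, from `S_SPLIT`, `S_ALPHA`: primes and elements chosen in turn -/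
def S_REC : Prop := ∃ S : Set ℕ, S.Infinite ∧ (∀ p ∈ S, p.Prime) ∧
  (∀ x : Qb, {p | p ∈ S ∧ ¬ TPa p x}.Finite) ∧
  {α : Qb | absLogHeight ![1, α] ≤ 5 ∧ ∀ p ∈ S, TPa p α}.Infinite

end Run7.h100.UN
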