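import Pool.Agent.Run7.h100.UN.Usb

set_option autoImplicit false

namespace Run7.h100.UN

open NumberField Height Module Polynomial
open scoped OnePoint
open Pool.Agent.Helper259.AbsHt (absLogHeight absLogHeight_smul absLogHeight_int absLogHeight_eq)

lemma ht_natCast_ge (n : ℕ) (hn : 0 < n) : Real.log n ≤ absLogHeight ![(1 : Qb), (n : Qb)] := by
  have h1 := absLogHeight_int ![(1 : ℤ), (n : ℤ)] (by
    have : Finset.univ.gcd ![(1 : ℤ), (n : ℤ)] ∣ 1 := by
      have := Finset.gcd_dvd (f := ![(1 : ℤ), (n : ℤ)]) (Finset.mem_univ (0 : Fin 2))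
      simpa using this
    have h2 : normalize (Finset.univ.gcd ![(1 : ℤ), (n : ℤ)]) = Finset.univ.gcd ![(1 : ℤ), (n : ℤ)] :=
      Finset.normalize_gcd
    rw [← h2, normalize_eq_one]
    exact isUnit_of_dvd_one this)
  have e : (fun i => ((![(1 : ℤ), (n : ℤ)] i : ℤ) : Qb)) = ![1, (n : Qb)] := by
    funext i
    fin_cases i <;> simp
  rw [e] at h1
  rw [h1]
  have h3 : (n : ℤ) ≤ ⨆ i, |(![(1 : ℤ), (n : ℤ)] : Fin 2 → ℤ) i| := by
    have := le_ciSup (f := fun i => |(![(1 : ℤ), (n : ℤ)] : Fin 2 → ℤ) i|)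
      (Set.finite_range _).bddAbove 1
    simpa using this
  apply Real.log_le_log
  · exact_mod_cast hn
  · exact_mod_cast h3

/-- the canonical height of the map `ratm P Q d` -/
def IsCan (P Q : Qb[X]) (d : ℕ) (H : OnePoint Qb → ℝ) : Prop :=
  (∀ z, H (ratm P Q d z) = d * H z) ∧ ∃ C : ℝ, ∀ z, |H z - wh z| ≤ C

lemma can_iter {P Q : Qb[X]} {d : ℕ} {H : OnePoint Qb → ℝ} (h : IsCan P Q d H) (n : ℕ) :
    ∀ z, H ((ratm P Q d)^[n] z) = (d : ℝ) ^ n * H z := by
  induction n with
  | zero => intro z; simp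
  | succ n ih =>
    intro z
    rw [Function.iterate_succ_apply, ih, h.1, pow_succ]
    ring

lemma can_preper {P Q : Qb[X]} {d : ℕ} (hd : 2 ≤ d) {H : OnePoint Qb → ℝ} (h : IsCan P Q d H)
    {z : OnePoint Qb} (hz : (Set.range fun n : ℕ => (ratm P Q d)^[n] z).Finite) : H z = 0 := by
  by_contra hne
  have hpos : 0 < |H z| := abs_pos.2 hne
  have hfin := hz.image fun w => |H w|
  obtain ⟨B, hB⟩ := hfin.bddAbove
  obtain ⟨n, hn⟩ := pow_unbounded_of_one_lt (B / |H z|) (show (1 : ℝ) < 2 by norm_num)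
  have h1 : |H ((ratm P Q d)^[n] z)| ≤ B := hB ⟨_, ⟨n, rfl⟩, rfl⟩
  rw [can_iter h, abs_mul, abs_of_nonneg (by positivity : (0 : ℝ) ≤ (d : ℝ) ^ n)] at h1
  rw [div_lt_iff₀ hpos] at hn
  have h3 : (2 : ℝ) ^ n ≤ (d : ℝ) ^ n := pow_le_pow_left₀ (by norm_num) (by exact_mod_cast hd) n
  have h4 := mul_le_mul_of_nonneg_right h3 hpos.le
  linarith

lemma preper_of_eq {X : Type*} (f : X → X) (z : X) (n m : ℕ) (h : n < m) (he : f^[m] z = f^[n] z) :
    (Set.range fun k : ℕ => f^[k] z).Finite := by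
  have key : ∀ k : ℕ, ∃ j < m, f^[k] z = f^[j] z := by
    intro k
    induction k using Nat.strong_induction_on with
    | _ k ih =>
      by_cases hk : k < m
      · exact ⟨k, hk, rfl⟩
      · obtain ⟨j, hj, e⟩ := ih (k - m + n) (by omega)
        refine ⟨j, hj, ?_⟩
        rw [← e]
        have e1 : k = (k - m) + m := by omega
        conv_lhs => rw [e1]
        rw [Function.iterate_add_apply, he, ← Function.iterate_add_apply]
  refine ((Set.finite_lt_nat m).image fun j => f^[j] z).subset ?_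
  rintro _ ⟨k, rfl⟩
  obtain ⟨j, hj, e⟩ := key k
  exact ⟨j, hj, e.symm⟩

/-- the points over `F` -/
def PP (F : IntermediateField ℚ Qb) : Set (OnePoint Qb) :=
  {z | z = ∞ ∨ ∃ x ∈ F, z = (x : OnePoint Qb)}

/-- the strong Bogomolov property of `TS S` -/
theorem usb (hLOW : S_LOW) (hLOC : S_LOC) (hDYN : S_DYN) (hGOOD : S_GOOD) (hPT : S_PT) (hFIN : S_FIN)
    (S : Set ℕ) (hSi : S.Infinite) (hSp : ∀ p ∈ S, p.Prime)
    (hSe : ∀ x : Qb, {p | p ∈ S ∧ ¬ TPa p x}.Finite) (P Q : Qb[X]) (d : ℕ) (hc : IsCoprime P Q)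
    (hd : max P.natDegree Q.natDegree = d) (hd2 : 2 ≤ d) (H : OnePoint Qb → ℝ) (hH : IsCan P Q d H) :
    (∃ c : ℝ, 0 < c ∧ ∀ z ∈ PP (TS S), ¬ (Set.range fun n : ℕ => (ratm P Q d)^[n] z).Finite → c ≤ H z) ∧
    (PP (TS S) ∩ {z | (Set.range fun n : ℕ => (ratm P Q d)^[n] z).Finite}).Finite := by
  classical
  obtain ⟨n₀, hn₀⟩ := hGOOD P Q d hc hd (by omega)
  obtain ⟨C, hC⟩ := hH.2
  have hC0 : 0 ≤ C := (abs_nonneg _).trans (hC ∞)
  -- the prime
  obtain ⟨M, hM⟩ := exists_nat_gt (Real.exp (Real.log 2 + 2 * C + 1))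
  have hbad : ((⋃ i ∈ Finset.range (d + 1), {p | p ∈ S ∧ ¬ TPa p (P.coeff i)}) ∪
      (⋃ i ∈ Finset.range (d + 1), {p | p ∈ S ∧ ¬ TPa p (Q.coeff i)}) ∪ {p | p ≤ max n₀ M}).Finite :=
    ((Set.Finite.biUnion (Finset.finite_toSet _) fun i _ => hSe _).union
      (Set.Finite.biUnion (Finset.finite_toSet _) fun i _ => hSe _)).union (Set.finite_le_nat _)
  obtain ⟨p, hpS, hpb⟩ := (hSi.sdiff hbad).nonempty
  simp only [Set.mem_union, Set.mem_iUnion, not_or, not_exists] at hpb
  obtain ⟨⟨hb1, hb2⟩, hb3⟩ := hpb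
  have hpM : max n₀ M < p := not_le.1 hb3
  have hpp := hSp p hpS
  have zeroTP : TPa p 0 := (TS {p}).zero_mem p rfl
  have oneTP : TPa p 1 := (TS {p}).one_mem p rfl
  have hP : ∀ i, TPa p (P.coeff i) := by
    intro i
    by_cases hi : i < d + 1
    · by_contra h
      exact hb1 i (Finset.mem_range.2 hi) ⟨hpS, h⟩
    · rw [coeff_eq_zero_of_natDegree_lt (by have := le_max_left P.natDegree Q.natDegree; omega)]
      exact zeroTP
  have hQ : ∀ i, TPa p (Q.coeff i) := by
    intro i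
    by_cases hi : i < d + 1
    · by_contra h
      exact hb2 i (Finset.mem_range.2 hi) ⟨hpS, h⟩
    · rw [coeff_eq_zero_of_natDegree_lt (by have := le_max_right P.natDegree Q.natDegree; omega)]
      exact zeroTP
  have hlogp : Real.log 2 + 2 * C + 1 < Real.log p := by
    rw [Real.lt_log_iff_exp_lt (by exact_mod_cast hpp.pos)]
    exact hM.trans_le (by exact_mod_cast ((le_max_right n₀ M).trans hpM.le))
  have hKEY : ∀ z ∈ PP (TS S), (ratm P Q d)^[2 * (p * p).factorial] z ≠
      (ratm P Q d)^[(p * p).factorial] z →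
      Real.log p ≤ Real.log 2 + wh ((ratm P Q d)^[2 * (p * p).factorial] z) +
        wh ((ratm P Q d)^[(p * p).factorial] z) := by
    intro z hz hne
    have hk := key hLOW hLOC hDYN hPT P Q d hc hd n₀ hn₀ p hpp ((le_max_left _ _).trans_lt hpM) hP hQ
    rcases hz with rfl | ⟨x, hx, rfl⟩
    · have e : pt (1, 0) = ∞ := by unfold pt; rw [if_pos rfl]
      have := hk (1, 0) (by simp) oneTP zeroTP
      rw [e] at this
      exact this hne
    · have e : pt (x, 1) = (x : OnePoint Qb) := by unfold pt; rw [if_neg one_ne_zero, div_one]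
      have := hk (x, 1) (by simp) (mem_TS.1 hx p hpS) oneTP
      rw [e] at this
      exact this hne
  set N := (p * p).factorial with hN
  have hNpos : 0 < N := Nat.factorial_pos _
  have hwh : ∀ z, wh z ≤ H z + C := by
    intro z
    have := abs_le.1 (hC z)
    linarith [this.1]
  refine ⟨⟨1 / ((d : ℝ) ^ (2 * N) + (d : ℝ) ^ N), by positivity, ?_⟩, ?_⟩
  · intro z hz hnp
    have hne : (ratm P Q d)^[2 * N] z ≠ (ratm P Q d)^[N] z := by
      intro h
      exact hnp (preper_of_eq _ z N (2 * N) (by omega) h)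
    have h1 := hKEY z hz hne
    have h2 := hwh ((ratm P Q d)^[2 * N] z)
    have h3 := hwh ((ratm P Q d)^[N] z)
    rw [can_iter hH] at h2 h3
    rw [div_le_iff₀ (by positivity)]
    nlinarith
  · have hsubset : PP (TS S) ∩ {z | (Set.range fun n : ℕ => (ratm P Q d)^[n] z).Finite} ⊆
        {z | (ratm P Q d)^[2 * N] z = (ratm P Q d)^[N] z} := by
      rintro z ⟨hz, hfin⟩
      by_contra hne
      have h1 := hKEY z hz hne
      have h0 : H z = 0 := can_preper hd2 hH hfin
      have h2 := hwh ((ratm P Q d)^[2 * N] z)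
      have h3 := hwh ((ratm P Q d)^[N] z)
      rw [can_iter hH, h0, mul_zero] at h2 h3
      linarith
    refine (hFIN P Q d hc hd (2 * N) N ?_).subset hsubset
    by_contra hall
    push Not at hall
    have hz0 : ∀ z, wh z ≤ C := by
      intro z
      have h0 : H z = 0 := can_preper hd2 hH (preper_of_eq _ z N (2 * N) (by omega) (hall z))
      have := hwh z
      rw [h0] at this
      linarith
    obtain ⟨k, hk⟩ := exists_nat_gt (Real.exp C)
    have hk0 : 0 < k := by
      have : (0 : ℝ) < k := (Real.exp_pos _).trans hk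
      exact_mod_cast this
    have h1 := hz0 ((k : Qb) : OnePoint Qb)
    rw [wh_coe] at h1
    have h2 := ht_natCast_ge k hk0
    have h3 : C < Real.log k := by
      rw [Real.lt_log_iff_exp_lt (by exact_mod_cast hk0)]
      exact hk
    linarith

/-- `TS S` is a Galois extension of `ℚ` -/
theorem galois_TS (S : Set ℕ) : IsGalois ℚ (TS S) := by
  have hq : Normal ℚ Qb := normal_iff.2 fun x =>
    ⟨Pool.Agent.H58P.qb_isIntegral x, IsAlgClosed.splits _⟩
  have hn : @Normal ℚ (TS S) _ _ (IntermediateField.algebra' (TS S)) := by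
    rw [IntermediateField.normal_iff_forall_map_le']
    intro τ
    rw [IntermediateField.map_le_iff_le_comap]
    intro x hx
    show ∀ p ∈ S, TPa p (τ x)
    intro p hp hf σ
    exact hx p hp hf (σ.comp ((τ : Qb →+* Qb)))
  have hn' : Normal ℚ (TS S) := by
    convert hn
    exact Subsingleton.elim _ _
  exact { }

end Run7.h100.UN
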