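import Pool.Agent.Run7.h100.UN.Iface

/-!
# Project UN, arbitrarily small heights
-/

set_option autoImplicit false

namespace Run7.h100.UN

open NumberField Height Module Polynomial
open Pool.Agent.Helper259.AbsHt (absLogHeight)

/-- POLYE, from `S_HEN`: `S_POLY` with `ε` instead of `1` -/
def S_POLYE : Prop := ∀ s : Finset ℕ, (∀ p ∈ s, p.Prime) → ∀ ε : ℝ, 0 < ε → ∃ d₀ : ℕ, ∀ d : ℕ, d₀ ≤ d →
  ∃ f : ℤ[X], f.Monic ∧ f.natDegree = d ∧ Irreducible f ∧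
    Real.log (∑ i ∈ Finset.range (d + 1), |(f.coeff i : ℝ)|) ≤
      d * (ε + 2 * ∑ p ∈ s, Real.log p / ((p : ℝ) - 1)) ∧
    ∀ α : Qb, aeval α f = 0 → ∀ p ∈ s, TPa p α

/-- ALPHAE, from `S_POLYE`, `S_MAH` -/
def S_ALPHAE : Prop := ∀ s : Finset ℕ, (∀ p ∈ s, p.Prime) → ∀ ε : ℝ, 0 < ε →
  (∑ p ∈ s, Real.log p / ((p : ℝ) - 1)) ≤ ε → ∀ A : Finset Qb,
    ∃ α : Qb, α ∉ A ∧ absLogHeight ![1, α] ≤ 3 * ε ∧ ∀ p ∈ s, TPa p α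

/-- RECE, from `S_SPLIT`, `S_ALPHAE`: primes and elements chosen in turn, `p_n` so large that
`log p_n / (p_n - 1) ≤ δ / 2 ^ n` -/
def S_RECE : Prop := ∀ ε : ℝ, 0 < ε → ∃ S : Set ℕ, S.Infinite ∧ (∀ p ∈ S, p.Prime) ∧
  (∀ x : Qb, {p | p ∈ S ∧ ¬ TPa p x}.Finite) ∧
  {α : Qb | absLogHeight ![1, α] ≤ ε ∧ ∀ p ∈ S, TPa p α}.Infinite

end Run7.h100.UN
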