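import Pool.Agent.Run7.h100.UN.Iface
import Pool.Agent.H58P.Ht

set_option autoImplicit false

namespace Run7.h100.UN

open NumberField Height Module Polynomial
open scoped OnePoint
open Pool.Agent.Helper259.AbsHt (absLogHeight absLogHeight_smul absLogHeight_int absLogHeight_eq)

/-- the field of the numbers totally `p`-adic for all `p` in `S` -/
noncomputable def TS (S : Set ℕ) : IntermediateField ℚ Qb where
  carrier := {x | ∀ p ∈ S, TPa p x}
  mul_mem' := by
    intro x y hx hy p hp hf σ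
    obtain ⟨a, ha⟩ := hx p hp hf σ
    obtain ⟨b, hb⟩ := hy p hp hf σ
    exact ⟨a * b, by rw [map_mul, map_mul, ha, hb]⟩
  add_mem' := by
    intro x y hx hy p hp hf σ
    obtain ⟨a, ha⟩ := hx p hp hf σ
    obtain ⟨b, hb⟩ := hy p hp hf σ
    exact ⟨a + b, by rw [map_add, map_add, ha, hb]⟩
  algebraMap_mem' := by
    intro r p _ hf σ
    refine ⟨(r : ℚ_[p]), ?_⟩
    rw [show (algebraMap ℚ Qb) r = (r : Qb) from eq_ratCast _ r, map_ratCast, map_ratCast]
  inv_mem' := by
    intro x hx p hp hf σ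
    obtain ⟨a, ha⟩ := hx p hp hf σ
    exact ⟨a⁻¹, by rw [map_inv₀, map_inv₀, ha]⟩

lemma mem_TS {S : Set ℕ} {x : Qb} : x ∈ TS S ↔ ∀ p ∈ S, TPa p x := Iff.rfl

section lift

lemma lft_map {R T : Type*} [CommRing R] [CommRing T] (φ : R →+* T) (a b : ℕ → R) (d : ℕ)
    (z : R × R) : (φ (lft a b d z).1, φ (lft a b d z).2) =
      lft (fun i => φ (a i)) (fun i => φ (b i)) d (φ z.1, φ z.2) := by
  simp [lft, map_sum, map_mul, map_pow]

lemma lft_iter_map {R T : Type*} [CommRing R] [CommRing T] (φ : R →+* T) (a b : ℕ → R) (d : ℕ)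
    (n : ℕ) : ∀ z : R × R, (φ ((lft a b d)^[n] z).1, φ ((lft a b d)^[n] z).2) =
      (lft (fun i => φ (a i)) (fun i => φ (b i)) d)^[n] (φ z.1, φ z.2) := by
  induction n with
  | zero => intro z; rfl
  | succ n ih =>
    intro z
    rw [Function.iterate_succ_apply, Function.iterate_succ_apply, ih, lft_map]

lemma lft_smul {R : Type*} [CommRing R] (a b : ℕ → R) (d : ℕ) (c : R) (z : R × R) :
    lft a b d (c * z.1, c * z.2) = (c ^ d * (lft a b d z).1, c ^ d * (lft a b d z).2) := by
  have key : ∀ e : ℕ → R, ∑ i ∈ Finset.range (d + 1), e i * (c * z.1) ^ i * (c * z.2) ^ (d - i) =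
      c ^ d * ∑ i ∈ Finset.range (d + 1), e i * z.1 ^ i * z.2 ^ (d - i) := by
    intro e
    rw [Finset.mul_sum]
    refine Finset.sum_congr rfl fun i hi => ?_
    have h : i + (d - i) = d := by
      have := Finset.mem_range.1 hi
      omega
    have e' : c ^ d = c ^ i * c ^ (d - i) := by rw [← pow_add, h]
    rw [mul_pow, mul_pow, e']
    ring
  unfold lft
  simp only [key]

lemma lft_iter_smul {R : Type*} [CommRing R] (a b : ℕ → R) (d : ℕ) (n : ℕ) : ∀ (c : R) (z : R × R),
    (lft a b d)^[n] (c * z.1, c * z.2) =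
      (c ^ (d ^ n) * ((lft a b d)^[n] z).1, c ^ (d ^ n) * ((lft a b d)^[n] z).2) := by
  induction n with
  | zero => intro c z; simp
  | succ n ih =>
    intro c z
    rw [Function.iterate_succ_apply, lft_smul, ih, Function.iterate_succ_apply, ← pow_mul, pow_succ']

end lift

lemma pt_eq_of_det {z w : Qb × Qb} (hz : z ≠ 0) (hw : w ≠ 0) (h : z.1 * w.2 = z.2 * w.1) :
    pt z = pt w := by
  unfold pt
  by_cases h1 : z.2 = 0
  · have hz1 : z.1 ≠ 0 := fun h2 => hz (Prod.ext h2 h1)
    have h3 : w.2 = 0 := by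
      rw [h1, zero_mul] at h
      exact (mul_eq_zero.1 h).resolve_left hz1
    rw [if_pos h1, if_pos h3]
  · have h3 : w.2 ≠ 0 := by
      intro h3
      rw [h3, mul_zero] at h
      have := (mul_eq_zero.1 h.symm).resolve_left h1
      exact hw (Prod.ext this h3)
    rw [if_neg h1, if_neg h3]
    congr 1
    rw [div_eq_div_iff h1 h3, h]
    ring

/-- the height on the projective line -/
noncomputable def wh (z : OnePoint Qb) : ℝ := z.elim 0 fun x => NumberField.absLogHeight₁ x

lemma wh_coe (x : Qb) : wh (x : OnePoint Qb) = absLogHeight ![1, x] :=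
  Pool.Agent.H58P.absLogHeight₁_eq x

lemma ht_zero : absLogHeight ![(1 : Qb), 0] = 0 := by
  have := absLogHeight_eq ℚ (algebraMap ℚ Qb) (![1, 0] : Fin 2 → ℚ)
  have e2 : (fun i => algebraMap ℚ Qb ((![1, 0] : Fin 2 → ℚ) i)) = ![1, 0] := by
    funext i; fin_cases i <;> simp
  rw [e2] at this
  rw [this]
  have h1 : logHeight (![1, 0] : Fin 2 → ℚ) = 0 := by
    rw [logHeight_swap, ← logHeight₁_eq_logHeight, logHeight₁_zero]
  rw [h1, zero_div]

lemma wh_pt (z : Qb × Qb) (_hz : z ≠ 0) : wh (pt z) = absLogHeight ![z.1, z.2] := by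
  unfold pt
  by_cases h1 : z.2 = 0
  · rw [if_pos h1, h1, Pool.Agent.H58W.absLogHeight_pair, div_zero, ht_zero]
    rfl
  · rw [if_neg h1, wh_coe]
    exact (Pool.Agent.H58W.absLogHeight_pair z.1 z.2).symm

lemma iter_pt (hPT : S_PT) (P Q : Qb[X]) (d : ℕ) (hc : IsCoprime P Q)
    (hd : max P.natDegree Q.natDegree = d) (n : ℕ) : ∀ z : Qb × Qb, z ≠ 0 →
      (lft P.coeff Q.coeff d)^[n] z ≠ 0 ∧
      (ratm P Q d)^[n] (pt z) = pt ((lft P.coeff Q.coeff d)^[n] z) := by
  induction n with
  | zero => intro z hz; exact ⟨hz, rfl⟩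
  | succ n ih =>
    intro z hz
    obtain ⟨h1, h2⟩ := hPT P Q d hc hd z hz
    obtain ⟨h3, h4⟩ := ih _ h1
    refine ⟨by rwa [Function.iterate_succ_apply], ?_⟩
    rw [Function.iterate_succ_apply, Function.iterate_succ_apply, h2, h4]

/-- the local estimate at one place -/
lemma place (hLOC : S_LOC) (hDYN : S_DYN) (L : IntermediateField ℚ Qb) [NumberField L] (p : ℕ)
    (hp : p.Prime) (hL : ∀ x ∈ L, TPa p x) (a b : ℕ → L) (d : ℕ) (v : FinitePlace L)
    (hg : v (p : L) < 1 → (∀ i, v (a i) ≤ 1) ∧ (∀ i, v (b i) ≤ 1) ∧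
      ∀ z : L × L, max (v z.1) (v z.2) = 1 → max (v (lft a b d z).1) (v (lft a b d z).2) = 1)
    (z : L × L) (hz : z ≠ 0) (U V : L × L)
    (hU : U = (lft a b d)^[2 * (p * p).factorial] z) (hV : V = (lft a b d)^[(p * p).factorial] z) :
    v (U.1 * V.2 - U.2 * V.1) ≤ v (p : L) * max (v U.1) (v U.2) * max (v V.1) (v V.2) := by
  have hna : IsNonarchimedean v := fun x y => v.add_le x y
  have hsub : ∀ x y : L, v (x - y) ≤ max (v x) (v y) := by
    intro x y
    rw [sub_eq_add_neg]
    refine (hna x (-y)).trans ?_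
    rw [map_neg_eq_map]
  have hv0 : ∀ x : L, 0 ≤ v x := fun x => apply_nonneg v x
  have triv : v (U.1 * V.2 - U.2 * V.1) ≤ max (v U.1) (v U.2) * max (v V.1) (v V.2) := by
    refine (hsub _ _).trans (max_le ?_ ?_)
    · rw [map_mul]
      exact mul_le_mul (le_max_left _ _) (le_max_right _ _) (hv0 _) (le_max_of_le_left (hv0 _))
    · rw [map_mul]
      exact mul_le_mul (le_max_right _ _) (le_max_left _ _) (hv0 _) (le_max_of_le_left (hv0 _))
  by_cases hvp : v (p : L) < 1
  · obtain ⟨ha, hb, huni⟩ := hg hvp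
    obtain ⟨hl1, hl2⟩ := hLOC L p hp hL v hvp
    -- normalise
    obtain ⟨c, hc0, hc⟩ : ∃ c : L, c ≠ 0 ∧ v c = max (v z.1) (v z.2) := by
      rcases le_total (v z.1) (v z.2) with h | h
      · refine ⟨z.2, ?_, (max_eq_right h).symm⟩
        intro h0
        have : v z.1 = 0 := le_antisymm (by rw [h0, map_zero] at h; exact h) (hv0 _)
        exact hz (Prod.ext ((map_eq_zero v).1 this) h0)
      · refine ⟨z.1, ?_, (max_eq_left h).symm⟩
        intro h0
        have : v z.2 = 0 := le_antisymm (by rw [h0, map_zero] at h; exact h) (hv0 _)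
        exact hz (Prod.ext h0 ((map_eq_zero v).1 this))
    have hcv : 0 < v c := lt_of_le_of_ne (hv0 _) (fun h => hc0 ((map_eq_zero v).1 h.symm))
    set w : L × L := (z.1 / c, z.2 / c) with hw
    have hzw : z = (c * w.1, c * w.2) := by
      rw [hw]
      exact Prod.ext (by field_simp) (by field_simp)
    have hw1 : max (v w.1) (v w.2) = 1 := by
      rw [hw]
      simp only [map_div₀]
      rw [max_div_div_right hcv.le, ← hc, div_self hcv.ne']
    obtain ⟨h1, h2⟩ := hDYN L v.val hna p d hp.pos hl2 a b ha hb huni w hw1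
    have h3 := hl1 _ h2
    set N := (p * p).factorial
    have eU : U = (c ^ (d ^ (2 * N)) * ((lft a b d)^[2 * N] w).1,
        c ^ (d ^ (2 * N)) * ((lft a b d)^[2 * N] w).2) := by
      rw [hU]
      conv_lhs => rw [hzw]
      exact lft_iter_smul a b d _ c w
    have eV : V = (c ^ (d ^ N) * ((lft a b d)^[N] w).1,
        c ^ (d ^ N) * ((lft a b d)^[N] w).2) := by
      rw [hV]
      conv_lhs => rw [hzw]
      exact lft_iter_smul a b d _ c w
    have mU : max (v U.1) (v U.2) = v c ^ (d ^ (2 * N)) := by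
      rw [eU]
      simp only [map_mul, map_pow]
      rw [← mul_max_of_nonneg _ _ (pow_nonneg (hv0 c) _)]
      have := h1 (2 * N)
      change max (v _) (v _) = 1 at this
      rw [this, mul_one]
    have mV : max (v V.1) (v V.2) = v c ^ (d ^ N) := by
      rw [eV]
      simp only [map_mul, map_pow]
      rw [← mul_max_of_nonneg _ _ (pow_nonneg (hv0 c) _)]
      have := h1 N
      change max (v _) (v _) = 1 at this
      rw [this, mul_one]
    rw [mU, mV]
    have eD : U.1 * V.2 - U.2 * V.1 = c ^ (d ^ (2 * N)) * c ^ (d ^ N) *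
        (((lft a b d)^[2 * N] w).1 * ((lft a b d)^[N] w).2 -
          ((lft a b d)^[2 * N] w).2 * ((lft a b d)^[N] w).1) := by
      rw [eU, eV]
      ring
    rw [eD, map_mul, map_mul, map_pow, map_pow]
    have := mul_le_mul_of_nonneg_left h3 (mul_nonneg (pow_nonneg (hv0 c) (d ^ (2 * N)))
      (pow_nonneg (hv0 c) (d ^ N)))
    refine this.trans (le_of_eq ?_)
    ring
  · have h1 : (1 : ℝ) ≤ v (p : L) := not_lt.1 hvp
    refine triv.trans ?_
    have h2 : 0 ≤ max (v U.1) (v U.2) * max (v V.1) (v V.2) :=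
      mul_nonneg (le_max_of_le_left (hv0 _)) (le_max_of_le_left (hv0 _))
    rw [mul_assoc]
    exact le_mul_of_one_le_left h2 h1

/-- the key inequality -/
lemma key (hLOW : S_LOW) (hLOC : S_LOC) (hDYN : S_DYN) (hPT : S_PT) (P Q : Qb[X]) (d : ℕ)
    (hc : IsCoprime P Q) (hd : max P.natDegree Q.natDegree = d) (n₀ : ℕ)
    (hn₀ : ∀ p : ℕ, p.Prime → n₀ < p → ∀ (L : IntermediateField ℚ Qb) [NumberField L] (a b : ℕ → L),
      (∀ i, (a i : Qb) = P.coeff i) → (∀ i, (b i : Qb) = Q.coeff i) →
      ∀ v : FinitePlace L, v (p : L) < 1 → (∀ i, v (a i) ≤ 1) ∧ (∀ i, v (b i) ≤ 1) ∧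
        ∀ z : L × L, max (v z.1) (v z.2) = 1 → max (v (lft a b d z).1) (v (lft a b d z).2) = 1)
    (p : ℕ) (hp : p.Prime) (hnp : n₀ < p) (hP : ∀ i, TPa p (P.coeff i)) (hQ : ∀ i, TPa p (Q.coeff i))
    (z : Qb × Qb) (hz : z ≠ 0) (hz1 : TPa p z.1) (hz2 : TPa p z.2)
    (hne : (ratm P Q d)^[2 * (p * p).factorial] (pt z) ≠ (ratm P Q d)^[(p * p).factorial] (pt z)) :
    Real.log p ≤ Real.log 2 + wh ((ratm P Q d)^[2 * (p * p).factorial] (pt z)) +
      wh ((ratm P Q d)^[(p * p).factorial] (pt z)) := by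
  classical
  -- the number field
  set s : Finset Qb := ((Finset.range (d + 1)).image P.coeff ∪ (Finset.range (d + 1)).image Q.coeff) ∪
    {z.1, z.2} with hs
  have hfd : FiniteDimensional ℚ (IntermediateField.adjoin ℚ (s : Set Qb)) := by
    have : Finite (s : Set Qb) := s.finite_toSet
    exact IntermediateField.finiteDimensional_adjoin fun y _ =>
      ((AlgebraicClosure.isAlgebraic ℚ).isAlgebraic y).isIntegral
  set L : IntermediateField ℚ Qb := IntermediateField.adjoin ℚ (s : Set Qb) with hL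
  have hNF : NumberField L := { to_charZero := inferInstance, to_finiteDimensional := hfd }
  have hsub : (s : Set Qb) ⊆ L := IntermediateField.subset_adjoin ℚ _
  have hle : L ≤ TS {p} := by
    rw [hL, IntermediateField.adjoin_le_iff]
    intro y hy
    have hy' : TPa p y := by
      rw [hs] at hy
      simp only [Finset.coe_union, Finset.coe_image, Finset.coe_insert, Finset.coe_singleton] at hy
      rcases hy with (⟨i, _, rfl⟩ | ⟨i, _, rfl⟩) | hy
      · exact hP i
      · exact hQ i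
      · rcases hy with rfl | hy
        · exact hz1
        · rw [Set.mem_singleton_iff] at hy
          rw [hy]
          exact hz2
    show ∀ q ∈ ({p} : Set ℕ), TPa q y
    intro q hq
    rw [Set.mem_singleton_iff] at hq
    rw [hq]
    exact hy'
  have hLT : ∀ x ∈ L, TPa p x := fun x hx => (mem_TS.1 (hle hx)) p rfl
  have hPL : ∀ i, P.coeff i ∈ L := by
    intro i
    by_cases hi : i < d + 1
    · exact hsub (by
        rw [hs]
        simp only [Finset.coe_union, Finset.coe_image]
        exact Or.inl (Or.inl ⟨i, by simpa using hi, rfl⟩))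
    · rw [coeff_eq_zero_of_natDegree_lt (by have := le_max_left P.natDegree Q.natDegree; omega)]
      exact L.zero_mem
  have hQL : ∀ i, Q.coeff i ∈ L := by
    intro i
    by_cases hi : i < d + 1
    · exact hsub (by
        rw [hs]
        simp only [Finset.coe_union, Finset.coe_image]
        exact Or.inl (Or.inr ⟨i, by simpa using hi, rfl⟩))
    · rw [coeff_eq_zero_of_natDegree_lt (by have := le_max_right P.natDegree Q.natDegree; omega)]
      exact L.zero_mem
  have hz1L : z.1 ∈ L := hsub (by rw [hs]; simp)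
  have hz2L : z.2 ∈ L := hsub (by rw [hs]; simp)
  let a : ℕ → L := fun i => ⟨P.coeff i, hPL i⟩
  let b : ℕ → L := fun i => ⟨Q.coeff i, hQL i⟩
  let z' : L × L := (⟨z.1, hz1L⟩, ⟨z.2, hz2L⟩)
  have hz' : z' ≠ 0 := by
    intro h
    apply hz
    have h1 : z.1 = ((0 : L) : Qb) := congrArg (fun w : L × L => (w.1 : Qb)) h
    have h2 : z.2 = ((0 : L) : Qb) := congrArg (fun w : L × L => (w.2 : Qb)) h
    rw [ZeroMemClass.coe_zero] at h1 h2
    exact Prod.ext h1 h2
  set N := (p * p).factorial with hN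
  set U : L × L := (lft a b d)^[2 * N] z' with hU
  set V : L × L := (lft a b d)^[N] z' with hV
  have eU : ((U.1 : Qb), (U.2 : Qb)) = (lft P.coeff Q.coeff d)^[2 * N] z := by
    have := lft_iter_map (algebraMap L Qb) a b d (2 * N) z'
    exact this
  have eV : ((V.1 : Qb), (V.2 : Qb)) = (lft P.coeff Q.coeff d)^[N] z := by
    have := lft_iter_map (algebraMap L Qb) a b d N z'
    exact this
  obtain ⟨hU0, hUp⟩ := iter_pt hPT P Q d hc hd (2 * N) z hz
  obtain ⟨hV0, hVp⟩ := iter_pt hPT P Q d hc hd N z hz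
  rw [← eU] at hU0 hUp
  rw [← eV] at hV0 hVp
  have hD : U.1 * V.2 - U.2 * V.1 ≠ 0 := by
    intro h
    apply hne
    rw [hUp, hVp]
    apply pt_eq_of_det hU0 hV0
    have := congrArg (fun w : L => (w : Qb)) (sub_eq_zero.1 h)
    simpa using this
  have hmain := hLOW L p ![U.1, U.2] ![V.1, V.2] hp.pos (by simpa using hD) (by
    intro v
    have h1 := place hLOC hDYN L p hp hLT a b d v
      (fun hv => hn₀ p hp hnp L a b (fun _ => rfl) (fun _ => rfl) v hv) z' hz' U V hU hV
    have h2 : ∀ W : L × L, (⨆ i, v (![W.1, W.2] i)) = max (v W.1) (v W.2) := by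
      intro W
      apply le_antisymm
      · apply ciSup_le
        intro i
        fin_cases i
        · exact le_max_left _ _
        · exact le_max_right _ _
      · apply max_le
        · exact le_ciSup (f := fun i => v (![W.1, W.2] i)) (Set.finite_range _).bddAbove 0
        · exact le_ciSup (f := fun i => v (![W.1, W.2] i)) (Set.finite_range _).bddAbove 1
    rw [h2, h2]
    simpa using h1)
  have e1 : (fun i => ((![U.1, U.2] : Fin 2 → L) i : Qb)) = ![(U.1 : Qb), (U.2 : Qb)] := by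
    funext i
    fin_cases i <;> rfl
  have e2 : (fun i => ((![V.1, V.2] : Fin 2 → L) i : Qb)) = ![(V.1 : Qb), (V.2 : Qb)] := by
    funext i
    fin_cases i <;> rfl
  rw [e1, e2] at hmain
  rw [hUp, hVp, wh_pt _ hU0, wh_pt _ hV0]
  exact hmain

end Run7.h100.UN
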